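import Mathlib
import Pool.Agent.K1H27.HOp

/-!
# MP_1e8505_an: the chain `1 + *ω + ω + 1` is attainable

Let `W e_n = 2^{-|n|} e_{n+1}` be the bilateral weighted shift of Halmos.  Its closed invariant
subspaces are exactly `{0}`, `H` and the `M_k`, the closed linear span of the `e_n`, `n ≥ k`.
Hence its lattice of invariant subspaces is the chain `1 + *ω + ω + 1`.
-/

set_option autoImplicit false

open Filter Topology
open scoped InnerProductSpace

namespace Pool.Agent.Results.MP_1e8505_an.HalmosShift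

universe u

open Pool.Agent.K1H27.HSeq

section

variable {H : Type*} [NormedAddCommGroup H] [InnerProductSpace ℂ H]

/-- `Lat A`: the closed subspaces of `H` which are invariant under `A`, ordered by inclusion. -/
abbrev Lat (A : H →L[ℂ] H) : Type _ :=
  {M : Submodule ℂ H // IsClosed (M : Set H) ∧ ∀ x ∈ M, A x ∈ M}

/-- `W` is the bilateral weighted shift `W e_n = 2^{-|n|} e_{n+1}` with respect to the orthonormal
basis `e`. -/
def IsHalmosShift (e : HilbertBasis ℤ ℂ H) (W : H →L[ℂ] H) : Prop :=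
  ∀ n : ℤ, W (e n) = ((2 : ℂ) ^ n.natAbs)⁻¹ • e (n + 1)

/-- `M_k`, the closed linear span of the `e_n` with `n ≥ k`. -/
noncomputable def tail (e : HilbertBasis ℤ ℂ H) (k : ℤ) : Submodule ℂ H :=
  (Submodule.span ℂ {y : H | ∃ n : ℤ, k ≤ n ∧ y = e n}).topologicalClosure

/-- The closed invariant subspaces of `W` are exactly `{0}`, `H` and the `M_k`, `k ∈ ℤ`. -/
def OnlyObvious (e : HilbertBasis ℤ ℂ H) (W : H →L[ℂ] H) : Prop :=
  ∀ M : Submodule ℂ H, (IsClosed (M : Set H) ∧ ∀ x ∈ M, W x ∈ M) ↔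
    (M = ⊥ ∨ M = ⊤ ∨ ∃ k : ℤ, M = tail e k)

/-- `Lat A` is order isomorphic to the integers with a least and a greatest element adjoined,
that is, to the chain `1 + *ω + ω + 1`. -/
def AttainsChain (A : H →L[ℂ] H) : Prop :=
  Nonempty (Lat A ≃o WithBot (WithTop ℤ))

lemma tail_eq (e : HilbertBasis ℤ ℂ H) (k : ℤ) : tail e k = obv e k := by
  unfold tail obv
  congr 2
  ext y
  constructor
  · rintro ⟨n, hn, rfl⟩; exact ⟨n, hn, rfl⟩
  · rintro ⟨n, hn, rfl⟩; exact ⟨n, hn, rfl⟩

lemma good : GoodWeights (fun n : ℤ => ((2 : ℂ) ^ n.natAbs)⁻¹) 1 (1 / 2) where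
  ne n := inv_ne_zero (pow_ne_zero _ two_ne_zero)
  antiR n := by
    have h1 : ((n:ℤ) + 1).natAbs = n + 1 := by omega
    have h2 : ((n:ℤ)).natAbs = n := by omega
    simp only [h1, h2, norm_inv, norm_pow, Complex.norm_ofNat]
    apply inv_anti₀ (by positivity)
    exact pow_le_pow_right₀ (by norm_num) (by omega)
  antiL n := by
    have h1 : (-(n:ℤ) - 2).natAbs = n + 2 := by omega
    have h2 : (-(n:ℤ) - 1).natAbs = n + 1 := by omega
    simp only [h1, h2, norm_inv, norm_pow, Complex.norm_ofNat]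
    apply inv_anti₀ (by positivity)
    exact pow_le_pow_right₀ (by norm_num) (by omega)
  bdR n := by
    have h2 : ((n:ℤ)).natAbs = n := by omega
    simp only [h2, norm_inv, norm_pow, Complex.norm_ofNat]
    rw [one_mul, one_div, inv_pow]
  bdL n := by
    have h2 : (-(n:ℤ) - 1).natAbs = n + 1 := by omega
    simp only [h2, norm_inv, norm_pow, Complex.norm_ofNat]
    rw [one_mul, one_div, inv_pow]
    apply inv_anti₀ (by positivity)
    exact pow_le_pow_right₀ (by norm_num) (by omega)
  C1 := le_refl _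
  q0 := by norm_num
  q1 := by norm_num

variable [CompleteSpace H]

lemma tail_lt (e : HilbertBasis ℤ ℂ H) {k l : ℤ} (h : k < l) : tail e l < tail e k := by
  rw [tail_eq, tail_eq, lt_iff_le_and_ne]
  constructor
  · intro f hf
    rw [mem_obv] at hf ⊢
    intro n hn
    exact hf n (by omega)
  · intro heq
    have h1 : e k ∈ obv e l := by rw [heq]; exact basis_mem_obv e le_rfl
    rw [mem_obv] at h1
    have h2 := h1 k h
    rw [inner_self_eq_norm_sq_to_K, e.orthonormal.1 k] at h2
    simp at h2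

lemma tail_ne_bot (e : HilbertBasis ℤ ℂ H) (k : ℤ) : ⊥ < tail e k :=
  lt_of_le_of_lt bot_le (tail_lt e (lt_add_one k))

lemma tail_ne_top (e : HilbertBasis ℤ ℂ H) (k : ℤ) : tail e k < ⊤ :=
  lt_of_lt_of_le (tail_lt e (sub_one_lt k)) le_top

/-- the chain of obvious invariant subspaces -/
noncomputable def chain (e : HilbertBasis ℤ ℂ H) {W : H →L[ℂ] H} (hW : IsHalmosShift e W) :
    WithBot (WithTop ℤ) → Lat W
  | none => ⟨⊥, (lat_eq good e hW _).2 (Or.inl rfl)⟩
  | some none => ⟨⊤, (lat_eq good e hW _).2 (Or.inr (Or.inl rfl))⟩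
  | some (some k) => ⟨tail e (-k), (lat_eq good e hW _).2 (Or.inr (Or.inr ⟨-k, tail_eq e _⟩))⟩

lemma chain_strictMono (e : HilbertBasis ℤ ℂ H) {W : H →L[ℂ] H} (hW : IsHalmosShift e W) :
    StrictMono (chain e hW) := by
  intro a b hab
  match a, b with
  | none, none => exact absurd hab (lt_irrefl _)
  | none, some none =>
    show (⊥ : Submodule ℂ H) < ⊤
    exact (tail_ne_bot e 0).trans (tail_ne_top e 0)
  | none, some (some k) =>
    show (⊥ : Submodule ℂ H) < tail e (-k)
    exact tail_ne_bot e _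
  | some none, none => exact absurd hab (WithBot.not_lt_bot _)
  | some none, some none => exact absurd hab (lt_irrefl _)
  | some none, some (some k) =>
    exact absurd (WithBot.coe_lt_coe.1 hab) not_top_lt
  | some (some k), none => exact absurd hab (WithBot.not_lt_bot _)
  | some (some k), some none =>
    show tail e (-k) < (⊤ : Submodule ℂ H)
    exact tail_ne_top e _
  | some (some k), some (some l) =>
    have h1 : k < l := WithTop.coe_lt_coe.1 (WithBot.coe_lt_coe.1 hab)
    show tail e (-k) < tail e (-l)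
    exact tail_lt e (by omega)

lemma chain_surjective (e : HilbertBasis ℤ ℂ H) {W : H →L[ℂ] H} (hW : IsHalmosShift e W) :
    Function.Surjective (chain e hW) := by
  rintro ⟨M, hM⟩
  rcases (lat_eq good e hW M).1 hM with rfl | rfl | ⟨k, rfl⟩
  · exact ⟨none, rfl⟩
  · exact ⟨some none, rfl⟩
  · refine ⟨some (some (-k)), ?_⟩
    apply Subtype.ext
    show tail e (- -k) = obv e k
    rw [neg_neg, tail_eq]

end

/-- existence of the shift -/
lemma exists_shift : ∃ W : lp (fun _ : ℤ => ℂ) 2 →L[ℂ] lp (fun _ : ℤ => ℂ) 2,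
    IsHalmosShift (HilbertBasis.ofRepr (LinearIsometryEquiv.refl ℂ (lp (fun _ : ℤ => ℂ) 2))) W := by
  set e : HilbertBasis ℤ ℂ (lp (fun _ : ℤ => ℂ) 2) :=
    HilbertBasis.ofRepr (LinearIsometryEquiv.refl ℂ (lp (fun _ : ℤ => ℂ) 2)) with he
  let T : ℤ → (lp (fun _ : ℤ => ℂ) 2 →L[ℂ] lp (fun _ : ℤ => ℂ) 2) := fun n =>
    (((2 : ℂ) ^ n.natAbs)⁻¹) • (innerSL ℂ (e n)).smulRight (e (n + 1))
  have hn : ∀ n, ‖T n‖ ≤ ((2 : ℝ) ^ n.natAbs)⁻¹ := by
    intro n
    show ‖(((2 : ℂ) ^ n.natAbs)⁻¹) • (innerSL ℂ (e n)).smulRight (e (n + 1))‖ ≤ _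
    rw [norm_smul, ContinuousLinearMap.norm_smulRight_apply, innerSL_apply_norm, e.orthonormal.1,
      e.orthonormal.1, mul_one, mul_one, norm_inv, norm_pow, Complex.norm_ofNat]
  have hs : Summable (fun n : ℤ => ((2 : ℝ) ^ n.natAbs)⁻¹) := by
    apply Summable.of_nat_of_neg_add_one
    · have : (fun n : ℕ => ((2 : ℝ) ^ ((n : ℤ)).natAbs)⁻¹) = fun n : ℕ => (1 / 2 : ℝ) ^ n := by
        funext n; simp
      rw [this]
      exact summable_geometric_of_lt_one (by norm_num) (by norm_num)
    · have : (fun n : ℕ => ((2 : ℝ) ^ (-((n : ℤ) + 1)).natAbs)⁻¹) = fun n : ℕ => (1 / 2 : ℝ) ^ (n + 1) := by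
        funext n
        have : (-((n : ℤ) + 1)).natAbs = n + 1 := by omega
        rw [this]; simp
      rw [this]
      exact (summable_nat_add_iff 1).2 (summable_geometric_of_lt_one (by norm_num) (by norm_num))
  have hT : Summable T := Summable.of_norm_bounded hs hn
  refine ⟨∑' n, T n, ?_⟩
  intro m
  have h1 : HasSum (fun n => T n (e m)) ((∑' n, T n) (e m)) :=
    hT.hasSum.mapL (ContinuousLinearMap.apply ℂ _ (e m))
  have h2 : HasSum (fun n => T n (e m)) (((2 : ℂ) ^ m.natAbs)⁻¹ • e (m + 1)) := by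
    have h3 : T m (e m) = ((2 : ℂ) ^ m.natAbs)⁻¹ • e (m + 1) := by
      show (((2 : ℂ) ^ m.natAbs)⁻¹) • (⟪e m, e m⟫_ℂ • e (m + 1)) = _
      rw [inner_self_eq_norm_sq_to_K, e.orthonormal.1 m]
      simp
    rw [← h3]
    apply hasSum_single
    intro n hnm
    show (((2 : ℂ) ^ n.natAbs)⁻¹) • (⟪e n, e m⟫_ℂ • e (n + 1)) = 0
    rw [e.orthonormal.2 hnm, zero_smul, smul_zero]
  exact h1.unique h2

theorem key (H : Type u) [NormedAddCommGroup H] [InnerProductSpace ℂ H] [CompleteSpace H]
    (e : HilbertBasis ℤ ℂ H) (W : H →L[ℂ] H) (hW : IsHalmosShift e W) :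
    OnlyObvious e W ∧ AttainsChain W := by
  refine ⟨fun M => ?_, ?_⟩
  · rw [lat_eq good e hW M]
    simp only [tail_eq]
  · exact ⟨(StrictMono.orderIsoOfSurjective _ (chain_strictMono e hW)
      (chain_surjective e hW)).symm⟩

/-- **The weighted shift of Halmos has no invariant subspaces besides the obvious ones, and the
chain `1 + *ω + ω + 1` is attainable.**

(Q2) Let `H` be a complex Hilbert space with an orthonormal basis `e_n` (`n ∈ ℤ`) and let `W` be a
bounded operator with `W e_n = 2^{-|n|} e_{n+1}`.  A linear subspace `M` of `H` is closed and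
invariant under `W` if and only if it is `{0}`, `H` or one of the `M_k`.

(Q1) There are a separable complex Hilbert space and a bounded operator on it, namely this weighted
shift, whose lattice of invariant subspaces is order isomorphic to the integers with a least and a
greatest element adjoined. -/
theorem result :
    (∀ (H : Type u) [NormedAddCommGroup H] [InnerProductSpace ℂ H] [CompleteSpace H]
      (e : HilbertBasis ℤ ℂ H) (W : H →L[ℂ] H), IsHalmosShift e W → OnlyObvious e W) ∧
    (∃ (H : Type) (_ : NormedAddCommGroup H) (_ : InnerProductSpace ℂ H) (_ : CompleteSpace H)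
      (_ : TopologicalSpace.SeparableSpace H) (e : HilbertBasis ℤ ℂ H) (W : H →L[ℂ] H),
      IsHalmosShift e W ∧ AttainsChain W) := by
  refine ⟨fun H _ _ _ e W hW => (key H e W hW).1, ?_⟩
  obtain ⟨W, hW⟩ := exists_shift
  refine ⟨lp (fun _ : ℤ => ℂ) 2, inferInstance, inferInstance, inferInstance, ?_, _, W, hW,
    (key _ _ W hW).2⟩
  set e : HilbertBasis ℤ ℂ (lp (fun _ : ℤ => ℂ) 2) :=
    HilbertBasis.ofRepr (LinearIsometryEquiv.refl ℂ (lp (fun _ : ℤ => ℂ) 2)) with he
  have h1 : TopologicalSpace.IsSeparable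
      ((Submodule.span ℂ (Set.range e) : Submodule ℂ (lp (fun _ : ℤ => ℂ) 2)) :
        Set (lp (fun _ : ℤ => ℂ) 2)) :=
    (Set.countable_range e).isSeparable.span
  have h2 := h1.closure
  have h3 : closure ((Submodule.span ℂ (Set.range e) : Submodule ℂ (lp (fun _ : ℤ => ℂ) 2)) :
        Set (lp (fun _ : ℤ => ℂ) 2)) = Set.univ := by
    have := e.dense_span
    rw [← Submodule.topologicalClosure_coe, this, Submodule.top_coe]
  rw [h3] at h2
  exact TopologicalSpace.isSeparable_univ_iff.1 h2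

end Pool.Agent.Results.MP_1e8505_an.HalmosShift
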